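import Mathlib
import Pool.Agent.Helper962.G11

/-!
# A flat simply connected domain without real-analytic isometric embedding into Euclidean 3-space

There are a bounded simply connected domain in the plane and a locally Euclidean metric, smooth up
to the boundary, such that no isometric embedding into Euclidean 3-space has an image that is a
real-analytic surface at each of its points. The domain is a comb with three teeth; the lower parts
of the three teeth are stretched so that they develop onto three sheets lying over one another.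
-/

set_option autoImplicit false

namespace Pool.Agent.Results.MP_60a66a_gt.CombDomain

open Set Filter Topology
open scoped ContDiff

/-- A quadratic form `E dξ² + 2 F dξ dη + G dη²` on the plane with coordinates `(ξ, η)`, given by
its coefficient functions. -/
structure Form where
  E : ℝ × ℝ → ℝ
  F : ℝ × ℝ → ℝ
  G : ℝ × ℝ → ℝ

/-- `g` is a Riemannian metric on `D`, given on the closure of `D` and smooth up to the boundary:
the coefficients are smooth, and the form is positive definite at each point of the closure. -/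
structure IsMetric (D : Set (ℝ × ℝ)) (g : Form) : Prop where
  smooth_E : ContDiff ℝ ∞ g.E
  smooth_F : ContDiff ℝ ∞ g.F
  smooth_G : ContDiff ℝ ∞ g.G
  E_pos : ∀ p ∈ closure D, 0 < g.E p
  det_pos : ∀ p ∈ closure D, 0 < g.E p * g.G p - g.F p ^ 2

/-- Euclidean inner product of pairs -/
def dot2 (a b : ℝ × ℝ) : ℝ := a.1 * b.1 + a.2 * b.2

/-- Euclidean inner product of triples -/
def dot3 (a b : ℝ × ℝ × ℝ) : ℝ := a.1 * b.1 + a.2.1 * b.2.1 + a.2.2 * b.2.2

/-- The map `φ` from `U` to the Euclidean plane pulls the Euclidean metric back to `g`. -/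
def IsIsometric2 (g : Form) (U : Set (ℝ × ℝ)) (φ : ℝ × ℝ → ℝ × ℝ) : Prop :=
  ∀ p ∈ U, dot2 (fderiv ℝ φ p (1, 0)) (fderiv ℝ φ p (1, 0)) = g.E p ∧
    dot2 (fderiv ℝ φ p (1, 0)) (fderiv ℝ φ p (0, 1)) = g.F p ∧
    dot2 (fderiv ℝ φ p (0, 1)) (fderiv ℝ φ p (0, 1)) = g.G p

/-- The map `r` from `U` to Euclidean 3-space pulls the Euclidean metric back to `g`. -/
def IsIsometric3 (g : Form) (U : Set (ℝ × ℝ)) (r : ℝ × ℝ → ℝ × ℝ × ℝ) : Prop :=
  ∀ p ∈ U, dot3 (fderiv ℝ r p (1, 0)) (fderiv ℝ r p (1, 0)) = g.E p ∧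
    dot3 (fderiv ℝ r p (1, 0)) (fderiv ℝ r p (0, 1)) = g.F p ∧
    dot3 (fderiv ℝ r p (0, 1)) (fderiv ℝ r p (0, 1)) = g.G p

/-- The metric `g` is locally Euclidean on `D`: each point of `D` has an open neighbourhood `U` in
`D` with an injective smooth map `φ` onto an open subset of the plane that pulls the Euclidean
metric back to `g`. -/
def IsLocallyEuclidean (D : Set (ℝ × ℝ)) (g : Form) : Prop :=
  ∀ p ∈ D, ∃ U : Set (ℝ × ℝ), IsOpen U ∧ p ∈ U ∧ U ⊆ D ∧ ∃ φ : ℝ × ℝ → ℝ × ℝ,
    ContDiffOn ℝ ∞ φ U ∧ InjOn φ U ∧ IsOpen (φ '' U) ∧ IsIsometric2 g U φ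

/-- `r` is an isometric embedding of `(D, g)` into Euclidean 3-space: a continuously
differentiable map that pulls the Euclidean metric back to `g` and is a homeomorphism onto its
image. -/
structure IsIsometricEmbedding (D : Set (ℝ × ℝ)) (g : Form) (r : ℝ × ℝ → ℝ × ℝ × ℝ) : Prop where
  contDiffOn : ContDiffOn ℝ 1 r D
  isometric : IsIsometric3 g D r
  isEmbedding : Topology.IsEmbedding (fun p : D => r p)

/-- The set `S` is a real-analytic surface at its point `q`: in a neighbourhood of `q` it is the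
zero set of a real-analytic function without critical points. -/
def IsAnalyticSurfaceAt (S : Set (ℝ × ℝ × ℝ)) (q : ℝ × ℝ × ℝ) : Prop :=
  ∃ (O : Set (ℝ × ℝ × ℝ)) (F : ℝ × ℝ × ℝ → ℝ), IsOpen O ∧ q ∈ O ∧ AnalyticOnNhd ℝ F O ∧
    (∀ x ∈ O, fderiv ℝ F x ≠ 0) ∧ ∀ x ∈ O, x ∈ S ↔ F x = 0

open Pool.Agent.Helper962.Comb in
/-- There are a bounded simply connected domain `D` and a locally Euclidean metric `g` on `D`,
smooth up to the boundary, such that for every isometric embedding `r` of `(D, g)` into Euclidean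
3-space the image `r(D)` fails to be a real-analytic surface at some point `r(p)`. -/
theorem result : ∃ (D : Set (ℝ × ℝ)) (g : Form),
    IsOpen D ∧ Bornology.IsBounded D ∧ SimplyConnectedSpace D ∧
    IsMetric D g ∧ IsLocallyEuclidean D g ∧
    ∀ r : ℝ × ℝ → ℝ × ℝ × ℝ, IsIsometricEmbedding D g r →
      ∃ p ∈ D, ¬ IsAnalyticSurfaceAt (r '' D) (r p) := by
  have := D_contractible
  refine ⟨D, ⟨gc (1, 0) (1, 0), gc (1, 0) (0, 1), gc (0, 1) (0, 1)⟩, isOpen_D, D_bounded,
    inferInstance, ⟨gc_contDiff _ _, gc_contDiff _ _, gc_contDiff _ _, fun p hp => (g_pos hp).1,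
    fun p hp => (g_pos hp).2⟩, fun p hp => ?_, fun r hr => ?_⟩
  · obtain ⟨U, h1, h2, h3, h4, h5, h6⟩ := Ψ_flat hp
    refine ⟨U, h1, h2, h3, Ψ, h4, h5, h6, fun q _ => ⟨?_, ?_, ?_⟩⟩
    · simp only [gc_eq, Ψ_deriv, dot2]
    · simp only [gc_eq, Ψ_deriv, dot2]
    · simp only [gc_eq, Ψ_deriv, dot2]
  · by_contra hcon
    push Not at hcon
    refine no_analytic' hr.contDiffOn ?_
      (injOn_iff_injective.2 hr.isEmbedding.injective) fun p hp => ?_
    · rintro p hp u v (⟨rfl, rfl⟩ | ⟨rfl, rfl⟩ | ⟨rfl, rfl⟩)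
      · exact (hr.isometric p hp).1
      · exact (hr.isometric p hp).2.1
      · exact (hr.isometric p hp).2.2
    · obtain ⟨O, F, h1, h2, h3, h4, h5⟩ := hcon p hp
      exact ⟨O, F, h1, h2, h3, h4, fun x hx hxS => (h5 x hx).1 hxS⟩

end Pool.Agent.Results.MP_60a66a_gt.CombDomain
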